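import Pool.Agent.L0h9.JB.EvB

set_option autoImplicit false

/-! # Project JB, module EV2 -/

namespace Pool.Agent.L0h9.JB
open Finset Pool.Agent.Helper91.CK

section
variable {V : Type*} [Fintype V] [DecidableEq V]
variable {k : ℕ} {G : SimpleGraph V} [DecidableRel G.Adj]

lemma card_split2 (C : Finset (Finset V)) (hTi : ∀ B ∈ C, Tight G k B)
    (hd : ∀ B ∈ C, ∀ B' ∈ C, B ≠ B' → Disjoint B B') :
    Fintype.card V = Fintype.card {x : V // ∀ B ∈ C, x ∉ B} +
      (k + 1) * Fintype.card {B // B ∈ C} := by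
  classical
  have h1 := split_sum C hd (fun _ => (1 : ℕ))
  have h2 : ∀ B : {B // B ∈ C}, ∑ x ∈ B.1, (1 : ℕ) = k + 1 := by
    intro B
    simp [(hTi B.1 B.2).1]
  simp_rw [h2] at h1
  simp only [Finset.sum_const, Finset.card_univ, smul_eq_mul, mul_one] at h1
  rw [h1]
  ring

lemma rest_a_ge2 {R : Type*} [Fintype R] [DecidableEq R] (H : SimpleGraph R) [DecidableRel H.Adj]
    (a : R → ℕ) (h : R → R → ℕ) (hR : RH k H a h) (x : R) :
    (k : ℤ) - Fintype.card R + 1 ≤ a x := by
  have h2 := hR.hdeg x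
  have h3 : (univ.filter (fun y => H.Adj x y)).card + 1 ≤ Fintype.card R := by
    have h4 : univ.filter (fun y => H.Adj x y) ⊆ univ.erase x := by
      intro y hy
      rw [Finset.mem_filter] at hy
      rw [Finset.mem_erase]
      exact ⟨fun hxy => H.irrefl (hxy ▸ hy.2 : H.Adj x x), Finset.mem_univ _⟩
    have h5 := Finset.card_le_card h4
    rw [Finset.card_erase_of_mem (Finset.mem_univ _), Finset.card_univ] at h5
    have : 0 < Fintype.card R := Fintype.card_pos_iff.mpr ⟨x⟩
    omega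
  omega

theorem key2 (hk : Even k) (hreg : ∀ v, ∑ y, ad G v y = k)
    (hcf : G.CliqueFree (k + 1)) (C : Finset (Finset V))
    (hTi : ∀ B ∈ C, Tight G k B) (hd : ∀ B ∈ C, ∀ B' ∈ C, B ≠ B' → Disjoint B B')
    (σR : {x : V // ∀ B ∈ C, x ∉ B} → ℤ) (hσR : Sg σR) :
    ∃ σ : V → ℤ, Sg σ ∧
        3 * F (Wt (G.comap Subtype.val) (hT (wTb G C) (wRb G C))) univ σR +
          (3 * (k : ℤ) + 8) * (Fintype.card {B // B ∈ C} : ℤ) +
          ∑ x : {x : V // ∀ B ∈ C, x ∉ B}, ((∑ B, wRb G C B x : ℕ) : ℤ) ≤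
          3 * F (fun x y => (ad G x y : ℤ)) univ σ := by
  classical
  have heT := eT_eq hreg C hTi hd
  obtain ⟨ε, hε, hTF⟩ := tpart (wTb G C) (wRb G C) (wTb_symm C) (wTb_self C)
    (fun B => by rw [heT B]; exact even_sum (ms G) ms_symm ms_self B.1)
    (fun B => by rw [heT B]; exact miss_pos hcf B.1 (hTi B.1 B.2).1) σR hσR
  have hA : ∑ x : {x : V // ∀ B ∈ C, x ∉ B}, ((∑ B, wRb G C B x : ℕ) : ℤ) =
      ∑ B, ∑ x, (wRb G C B x : ℤ) := by
    rw [Finset.sum_comm]
    push_cast
    rfl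
  rw [Finset.sum_sub_distrib, ← Finset.mul_sum] at hTF
  simp only [Finset.sum_const, Finset.card_univ, nsmul_eq_mul] at hTF
  obtain ⟨σ, hσ, hs, hF⟩ := assembleE hk hreg C hTi hd σR hσR ε hε
  refine ⟨σ, hσ, ?_⟩
  have hW : F (Wt (G.comap Subtype.val) (hT (wTb G C) (wRb G C))) univ σR =
      -(∑ x : {x : V // ∀ B ∈ C, x ∉ B}, ∑ y : {x : V // ∀ B ∈ C, x ∉ B},
          (ad G x.1 y.1 : ℤ) * σR x * σR y) +
      ∑ x, ∑ y, (hT (wTb G C) (wRb G C) x y : ℤ) * σR x * σR y := by
    unfold F Wt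
    rw [← Finset.sum_neg_distrib, ← Finset.sum_neg_distrib, ← Finset.sum_add_distrib]
    apply Finset.sum_congr rfl
    intro x _
    rw [← Finset.sum_neg_distrib, ← Finset.sum_neg_distrib, ← Finset.sum_add_distrib]
    apply Finset.sum_congr rfl
    intro y _
    unfold ad
    by_cases hxy : G.Adj x.1 y.1
    · simp [hxy]; ring
    · simp [hxy]
  rw [hW, hF, hA]
  linarith

end

theorem t_EV2 : Pool.Agent.L0h26.CK.S_EV2 := by
  classical
  intro hBAL hRP V _ _ G _ k hk1 hk hreg hcf hn hn1 hn2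
  obtain ⟨C, hTi, hd, hmax⟩ := exists_family G k
  have hR := RH_of hreg C hd hmax
  have hcard := card_split2 C hTi hd
  have heT := eT_eq hreg C hTi hd
  have hk0 : (1000 : ℤ) ≤ k := by exact_mod_cast hk1
  have hr0 : (0 : ℤ) ≤ (Fintype.card {x : V // ∀ B ∈ C, x ∉ B} : ℤ) := by positivity
  have hT3 : Fintype.card {B // B ∈ C} ≤ 3 := by
    by_contra hcon
    push Not at hcon
    have : (k + 1) * 4 ≤ (k + 1) * Fintype.card {B // B ∈ C} := Nat.mul_le_mul_left _ hcon
    omega
  by_cases hsp : Fintype.card {B // B ∈ C} = 3 ∧ Fintype.card {x : V // ∀ B ∈ C, x ∉ B} = 0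
  · -- three blocks, nothing else
    obtain ⟨hT, hr⟩ := hsp
    haveI : IsEmpty {x : V // ∀ B ∈ C, x ∉ B} := Fintype.card_eq_zero_iff.mp hr
    haveI : Nonempty {B // B ∈ C} := Fintype.card_pos_iff.mp (by omega)
    obtain ⟨c⟩ : Nonempty {B // B ∈ C} := inferInstance
    have hε : Sg (fun B : {B // B ∈ C} => if B = c then (1 : ℤ) else -1) := by
      intro B
      by_cases h : B = c <;> simp [h]
    obtain ⟨σ, hσ, hs, hF⟩ := assembleE hk hreg C hTi hd (fun _ => 1) (fun _ => Or.inl rfl)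
      (fun B => if B = c then (1 : ℤ) else -1) hε
    refine ⟨σ, hσ, ?_, ?_⟩
    · rw [hs]
      have h1 : ∑ B : {B // B ∈ C}, (if B = c then (1 : ℤ) else -1) =
          ∑ B : {B // B ∈ C}, ((if B = c then (2 : ℤ) else 0) - 1) := by
        apply Finset.sum_congr rfl
        intro B _
        split_ifs <;> norm_num
      have h1' : ∑ _x : {x : V // ∀ B ∈ C, x ∉ B}, (1 : ℤ) = 0 := by
        rw [Finset.sum_const, Finset.card_univ, hr, zero_smul]
      have h1'' : ∑ _B : {B // B ∈ C}, (1 : ℤ) = 3 := by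
        rw [Finset.sum_const, Finset.card_univ, hT]
        norm_num
      rw [h1, Finset.sum_sub_distrib, Finset.sum_ite_eq', h1', h1'', if_pos (Finset.mem_univ _)]
      norm_num
    · have hw : ∀ B, eT (wTb G C) (wRb G C) B = ∑ B', wTb G C B B' := by
        intro B
        unfold eT
        simp
      have h2 : ∑ B, ∑ B', (wTb G C B B' : ℤ) * (if B = c then (1 : ℤ) else -1) *
          (if B' = c then (1 : ℤ) else -1) =
          ∑ B, ∑ B', (wTb G C B B' : ℤ) - 4 * ∑ B', (wTb G C c B' : ℤ) := by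
        have h3 : ∀ B B', (wTb G C B B' : ℤ) * (if B = c then (1 : ℤ) else -1) *
          (if B' = c then (1 : ℤ) else -1) = (wTb G C B B' : ℤ) -
            2 * (if B = c then (wTb G C c B' : ℤ) else 0) -
            2 * (if B' = c then (wTb G C c B : ℤ) else 0) := by
          intro B B'
          by_cases h : B = c
          · by_cases h' : B' = c
            · rw [h, h', wTb_self]
              simp
            · rw [h]
              simp [h']
              ring
          · by_cases h' : B' = c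
            · rw [h', wTb_symm C B c]
              simp [h]
              ring
            · simp [h, h']
        simp_rw [h3, Finset.sum_sub_distrib]
        simp only [← Finset.mul_sum, Finset.sum_ite_eq', Finset.mem_univ, if_true]
        rw [Finset.sum_comm (f := fun B B' => if B = c then (wTb G C c B' : ℤ) else 0)]
        simp only [Finset.sum_ite_eq', Finset.mem_univ, if_true]
        ring
      have h4 : 2 ≤ eT (wTb G C) (wRb G C) c := by
        rw [heT c]
        exact miss_pos hcf c.1 (hTi c.1 c.2).1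
      have h5 : ∑ B : {B // B ∈ C}, (eT (wTb G C) (wRb G C) B : ℤ) =
          ∑ B, ∑ B', (wTb G C B B' : ℤ) := by
        apply Finset.sum_congr rfl
        intro B _
        rw [hw B]
        push_cast
        rfl
      have h6 : (eT (wTb G C) (wRb G C) c : ℤ) = ∑ B', (wTb G C c B' : ℤ) := by
        rw [hw c]
        push_cast
        rfl
      have h4' : (2 : ℤ) ≤ (eT (wTb G C) (wRb G C) c : ℤ) := by exact_mod_cast h4
      rw [h2, h5, hT] at hF
      simp only [Finset.univ_eq_empty, Finset.sum_empty, Finset.sum_const_zero, neg_zero,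
        mul_zero, sub_zero, zero_sub] at hF
      rw [h6] at h4'
      have h7 : 3 * (k : ℤ) + 8 ≤ F (fun x y => (ad G x y : ℤ)) univ σ := by
        rw [hF]
        push_cast
        linarith
      have h8 : (Fintype.card V : ℤ) = 3 * ((k : ℤ) + 1) := by
        rw [hcard, hT, hr]
        push_cast
        ring
      rw [h8]
      nlinarith
  · obtain ⟨σR, hσR, hRF⟩ := hRP {x : V // ∀ B ∈ C, x ∉ B} k (G.comap Subtype.val)
      (fun x => ∑ B, wRb G C B x) (hT (wTb G C) (wRb G C)) hk1 hR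
    obtain ⟨σ, hσ, hF⟩ := key2 hk hreg hcf C hTi hd σR hσR
    refine balance hBAL V G k hk1 hk hreg hn hn1 hn2 σ hσ ?_
    have hev := F_even hreg hk σ hσ
    have hA0 : ((k : ℤ) - Fintype.card {x : V // ∀ B ∈ C, x ∉ B} + 1) *
        (Fintype.card {x : V // ∀ B ∈ C, x ∉ B} : ℤ) ≤
        ∑ x : {x : V // ∀ B ∈ C, x ∉ B}, ((∑ B, wRb G C B x : ℕ) : ℤ) := by
      have h6 := Finset.sum_le_sum (s := (univ : Finset {x : V // ∀ B ∈ C, x ∉ B}))
        (fun x _ => rest_a_ge2 _ _ _ hR x)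
      rw [Finset.sum_const, Finset.card_univ, nsmul_eq_mul] at h6
      linarith
    have hA1 : (0 : ℤ) ≤ ∑ x : {x : V // ∀ B ∈ C, x ∉ B}, ((∑ B, wRb G C B x : ℕ) : ℤ) :=
      Finset.sum_nonneg fun _ _ => by positivity
    have hcardZ : (Fintype.card V : ℤ) = (Fintype.card {x : V // ∀ B ∈ C, x ∉ B} : ℤ) +
        ((k : ℤ) + 1) * (Fintype.card {B // B ∈ C} : ℤ) := by
      exact_mod_cast hcard
    have hn1' : 3 * (k : ℤ) + 3 ≤ Fintype.card V := by exact_mod_cast hn1
    have hn2' : (Fintype.card V : ℤ) ≤ 3 * k + 7 := by exact_mod_cast hn2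
    have h14 := mul_le_mul_of_nonneg_left hF (by linarith : (0 : ℤ) ≤ 10 * ((k : ℤ) + 1))
    set A : ℤ := ∑ x : {x : V // ∀ B ∈ C, x ∉ B}, ((∑ B, wRb G C B x : ℕ) : ℤ)
    set FW : ℤ := F (Wt (G.comap Subtype.val) (hT (wTb G C) (wRb G C))) univ σR
    set FF : ℤ := F (fun x y => (ad G x y : ℤ)) univ σ
    have hpos : (0 : ℤ) < 30 * ((k : ℤ) + 1) := by linarith
    have hmain : (30 * ((k : ℤ) + 1) + 125) * (Fintype.card {x : V // ∀ B ∈ C, x ∉ B} : ℤ) +
        ((k : ℤ) + 1) * (30 * k + 80) * (Fintype.card {B // B ∈ C} : ℤ) + 6 * ((k : ℤ) + 1) * A ≤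
        30 * ((k : ℤ) + 1) * FF := by linarith
    have hAk : 0 ≤ 6 * ((k : ℤ) + 1) * A := mul_nonneg (by linarith) hA1
    obtain ⟨T, hTT⟩ : ∃ T, Fintype.card {B // B ∈ C} = T := ⟨_, rfl⟩
    obtain ⟨r, hrr⟩ : ∃ r, Fintype.card {x : V // ∀ B ∈ C, x ∉ B} = r := ⟨_, rfl⟩
    rw [hTT] at hT3 hcardZ hmain hsp hcard
    rw [hrr] at hA0 hcardZ hmain hsp hcard hr0
    interval_cases T
    · -- no block
      have h1 : 3 * ((k : ℤ) + 1) ≤ r := by push_cast at hcardZ; linarith
      have h2 : 30 * ((k : ℤ) + 1) * (3 * k + 12) ≤ 30 * ((k : ℤ) + 1) * FF := by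
        push_cast at hmain
        nlinarith
      exact le_of_mul_le_mul_left h2 hpos
    · have h1 : 2 * ((k : ℤ) + 1) ≤ r := by push_cast at hcardZ; linarith
      have h2 : 30 * ((k : ℤ) + 1) * (3 * k + 12) ≤ 30 * ((k : ℤ) + 1) * FF := by
        push_cast at hmain
        nlinarith
      exact le_of_mul_le_mul_left h2 hpos
    · have h1 : ((k : ℤ) + 1) ≤ r := by push_cast at hcardZ; linarith
      have h2 : 30 * ((k : ℤ) + 1) * (3 * k + 10) < 30 * ((k : ℤ) + 1) * FF := by
        push_cast at hmain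
        nlinarith
      have h3 := lt_of_mul_lt_mul_left h2 hpos.le
      obtain ⟨c, hc⟩ := hk
      have hc' : (k : ℤ) = 2 * c := by rw [hc]; push_cast; ring
      omega
    · have hr1 : 1 ≤ r := by
        rcases Nat.eq_zero_or_pos r with h | h
        · exact absurd ⟨rfl, h⟩ hsp
        · exact h
      have hr4 : r ≤ 4 := by omega
      have hr1' : (1 : ℤ) ≤ r := by exact_mod_cast hr1
      have hr4' : (r : ℤ) ≤ 4 := by exact_mod_cast hr4
      have hA2 : (900 : ℤ) ≤ A := by nlinarith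
      have hA3 : 6 * ((k : ℤ) + 1) * 900 ≤ 6 * ((k : ℤ) + 1) * A :=
        mul_le_mul_of_nonneg_left hA2 (by linarith)
      have h2 : 30 * ((k : ℤ) + 1) * (3 * k + 12) ≤ 30 * ((k : ℤ) + 1) * FF := by
        push_cast at hmain
        nlinarith
      exact le_of_mul_le_mul_left h2 hpos

end Pool.Agent.L0h9.JB
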