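import Pool.Agent.L0h26.CK.Stm2

set_option autoImplicit false

/-! # Project JB, module EV2: assembling signs from signs on the rest and on the blocks,
blocks with any number of positive vertices -/

namespace Pool.Agent.L0h9.JB
open Finset Pool.Agent.Helper91.CK

variable {V : Type*} [Fintype V] [DecidableEq V]
variable {k : ℕ} {G : SimpleGraph V} [DecidableRel G.Adj]

lemma tau_sum2 (B X : Finset V) (hB : B.card = k + 1)
    (hX2 : X ⊆ B) :
    ∑ x ∈ B, (if x ∈ X then (1 : ℤ) else -1) = 2 * (X.card : ℤ) - ((k : ℤ) + 1) := by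
  rw [Finset.sum_ite, Finset.sum_const, Finset.sum_const]
  have e1 : B.filter (fun x => x ∈ X) = X := by
    ext x
    rw [Finset.mem_filter]
    exact ⟨fun h => h.2, fun h => ⟨hX2 h, h⟩⟩
  have e2 : B.filter (fun x => x ∉ X) = B \ X := by
    ext x
    rw [Finset.mem_filter, Finset.mem_sdiff]
  have hle : X.card ≤ B.card := Finset.card_le_card hX2
  rw [e1, e2, Finset.card_sdiff_of_subset hX2]
  simp only [nsmul_eq_mul]
  rw [hB] at hle ⊢
  push_cast [hle]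
  ring

lemma block_sum2 (B X : Finset V) (hB : B.card = k + 1)
    (hX1 : tch G B ⊆ X) (hX2 : X ⊆ B) :
    ∑ x ∈ B, ∑ y ∈ B, (ad G x y : ℤ) * (if x ∈ X then 1 else -1) * (if y ∈ X then 1 else -1) =
      (2 * (X.card : ℤ) - ((k : ℤ) + 1)) ^ 2 - ((k : ℤ) + 1) -
        ((∑ x ∈ B, ∑ y ∈ B, ms G x y : ℕ) : ℤ) := by
  set τ : V → ℤ := fun x => if x ∈ X then 1 else -1 with hτ
  have h1 : ∀ x ∈ B, ∀ y ∈ B, (ad G x y : ℤ) * τ x * τ y =
      τ x * τ y - (if x = y then 1 else 0) - (ms G x y : ℤ) := by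
    intro x hx y hy
    by_cases hxy : x = y
    · subst hxy
      have h2 : τ x * τ x = 1 := by
        rw [hτ]; by_cases h : x ∈ X <;> simp [h]
      rw [ad_self, ms_self, h2]
      simp
    · by_cases hadj : G.Adj x y
      · simp [ad, ms, hxy, hadj]
      · have hx' : x ∈ X := hX1 (by
          rw [tch, Finset.mem_filter]
          exact ⟨hx, y, hy, Ne.symm hxy, hadj⟩)
        have hy' : y ∈ X := hX1 (by
          rw [tch, Finset.mem_filter]
          exact ⟨hy, x, hx, hxy, fun h => hadj h.symm⟩)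
        simp [ad, ms, hxy, hadj, hτ, hx', hy']
  have h2 : ∑ x ∈ B, ∑ y ∈ B, (ad G x y : ℤ) * τ x * τ y =
      ∑ x ∈ B, ∑ y ∈ B, (τ x * τ y - (if x = y then 1 else 0) - (ms G x y : ℤ)) := by
    apply Finset.sum_congr rfl
    intro x hx
    apply Finset.sum_congr rfl
    intro y hy
    exact h1 x hx y hy
  rw [h2]
  simp_rw [Finset.sum_sub_distrib]
  have h3 : ∑ x ∈ B, ∑ y ∈ B, τ x * τ y = (∑ x ∈ B, τ x) * (∑ x ∈ B, τ x) := by
    rw [Finset.sum_mul_sum]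
  have h4 : ∑ x ∈ B, ∑ y ∈ B, (if x = y then (1 : ℤ) else 0) = k + 1 := by
    have : ∀ x ∈ B, ∑ y ∈ B, (if x = y then (1 : ℤ) else 0) = 1 := by
      intro x hx
      rw [Finset.sum_ite_eq]
      simp [hx]
    rw [Finset.sum_congr rfl this]
    simp [hB]
  have h5 : ∑ x ∈ B, τ x = 2 * (X.card : ℤ) - ((k : ℤ) + 1) := tau_sum2 B X hB hX2
  rw [h3, h4, h5]
  push_cast
  ring

theorem assemble2 (hreg : ∀ v, ∑ y, ad G v y = k) (C : Finset (Finset V))
    (hTi : ∀ B ∈ C, Tight G k B) (hd : ∀ B ∈ C, ∀ B' ∈ C, B ≠ B' → Disjoint B B')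
    (X : {B // B ∈ C} → Finset V)
    (hX1 : ∀ B, tch G B.1 ⊆ X B) (hX2 : ∀ B, X B ⊆ B.1)
    (σR : {x : V // ∀ B ∈ C, x ∉ B} → ℤ) (hσR : Sg σR) (ε : {B // B ∈ C} → ℤ) (hε : Sg ε) :
    ∃ σ : V → ℤ, Sg σ ∧ ∑ v, σ v = ∑ x, σR x +
      ∑ B, ε B * (2 * ((X B).card : ℤ) - ((k : ℤ) + 1)) ∧
    F (fun x y => (ad G x y : ℤ)) univ σ =
      -(∑ x : {x : V // ∀ B ∈ C, x ∉ B}, ∑ y : {x : V // ∀ B ∈ C, x ∉ B},
          (ad G x.1 y.1 : ℤ) * σR x * σR y)
      - 2 * (∑ B, ∑ x, (wRb G C B x : ℤ) * ε B * σR x)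
      - ∑ B, ∑ B', (wTb G C B B' : ℤ) * ε B * ε B'
      + ∑ B : {B // B ∈ C}, (((k : ℤ) + 1) + (eT (wTb G C) (wRb G C) B : ℤ)
          - (2 * ((X B).card : ℤ) - ((k : ℤ) + 1)) ^ 2) := by
  classical
  have heT := eT_eq hreg C hTi hd
  -- the sign assignment
  set σ : V → ℤ := fun v => if h : ∀ B ∈ C, v ∉ B then σR ⟨v, h⟩ else
    ∑ B : {B // B ∈ C}, if v ∈ B.1 then ε B * (if v ∈ X B then 1 else -1) else 0 with hσdef
  have hσR' : ∀ x : {x : V // ∀ B ∈ C, x ∉ B}, σ x.1 = σR x := by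
    intro x
    rw [hσdef]
    simp only
    rw [dif_pos x.2]
  have hσB : ∀ B : {B // B ∈ C}, ∀ v ∈ B.1, σ v = ε B * (if v ∈ X B then 1 else -1) := by
    intro B v hv
    rw [hσdef]
    simp only
    have hn : ¬ ∀ B ∈ C, v ∉ B := fun h => h B.1 B.2 hv
    rw [dif_neg hn, Finset.sum_eq_single B]
    · rw [if_pos hv]
    · intro B' _ hne
      rw [if_neg]
      intro hv'
      have : B'.1 ≠ B.1 := fun h => hne (Subtype.ext h)
      exact Finset.disjoint_left.mp (hd B'.1 B'.2 B.1 B.2 this) hv' hv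
    · intro h
      exact absurd (Finset.mem_univ _) h
  have hσs : Sg σ := by
    intro v
    by_cases hn : ∀ B ∈ C, v ∉ B
    · rw [hσR' ⟨v, hn⟩]
      exact hσR _
    · push Not at hn
      obtain ⟨B, hB, hv⟩ := hn
      rw [hσB ⟨B, hB⟩ v hv]
      rcases hε ⟨B, hB⟩ with h | h <;> by_cases h2 : v ∈ X ⟨B, hB⟩ <;> simp [h, h2]
  have hsum : ∑ v, σ v = ∑ x, σR x +
      ∑ B, ε B * (2 * ((X B).card : ℤ) - ((k : ℤ) + 1)) := by
    rw [split_sum C hd]
    congr 1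
    · exact Finset.sum_congr rfl fun x _ => hσR' x
    · apply Finset.sum_congr rfl
      intro B _
      rw [Finset.sum_congr rfl (hσB B), ← Finset.mul_sum,
        tau_sum2 B.1 (X B) (hTi B.1 B.2).1 (hX2 B)]
  refine ⟨σ, hσs, hsum, ?_⟩
  have hε2 : ∀ B, ε B * ε B = 1 := by
    intro B
    rcases hε B with h | h <;> simp [h]
  -- sums across
  have hout : ∀ B : {B // B ∈ C}, ∀ x ∈ B.1, ∀ y, y ∉ B.1 →
      (ad G x y : ℤ) * σ x = (ad G x y : ℤ) * ε B := by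
    intro B x hx y hy
    by_cases hadj : G.Adj x y
    · have := hX1 B (ext_touch hreg B.1 (hTi B.1 B.2).1 x y hx hy hadj)
      rw [hσB B x hx, if_pos this]
      ring
    · simp [ad, hadj]
  have hRB : ∀ (x : {x : V // ∀ B ∈ C, x ∉ B}) (B : {B // B ∈ C}),
      ∑ y ∈ B.1, (ad G x.1 y : ℤ) * σ x.1 * σ y = (wRb G C B x : ℤ) * ε B * σR x := by
    intro x B
    unfold wRb
    push_cast
    rw [Finset.sum_mul, Finset.sum_mul]
    apply Finset.sum_congr rfl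
    intro y hy
    have h1 := hout B y hy x.1 (x.2 B.1 B.2)
    rw [ad_symm x.1 y, hσR' x]
    linear_combination (σR x) * h1
  have hBR : ∀ (x : {x : V // ∀ B ∈ C, x ∉ B}) (B : {B // B ∈ C}),
      ∑ y ∈ B.1, (ad G y x.1 : ℤ) * σ y * σ x.1 = (wRb G C B x : ℤ) * ε B * σR x := by
    intro x B
    rw [← hRB x B]
    apply Finset.sum_congr rfl
    intro y hy
    rw [ad_symm x.1 y]
    ring
  have hBB : ∀ (B B' : {B // B ∈ C}), ∑ x ∈ B.1, ∑ y ∈ B'.1, (ad G x y : ℤ) * σ x * σ y =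
      (wTb G C B B' : ℤ) * ε B * ε B' + (if B = B' then
        ((2 * ((X B).card : ℤ) - ((k : ℤ) + 1)) ^ 2 - ((k : ℤ) + 1) - (eT (wTb G C) (wRb G C) B : ℤ)) else 0) := by
    intro B B'
    by_cases h : B = B'
    · subst h
      rw [if_pos rfl, wTb_self, heT B]
      simp only [Nat.cast_zero, zero_mul, zero_add]
      rw [← block_sum2 B.1 (X B) (hTi B.1 B.2).1 (hX1 B) (hX2 B)]
      apply Finset.sum_congr rfl
      intro x hx
      apply Finset.sum_congr rfl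
      intro y hy
      rw [hσB B x hx, hσB B y hy]
      linear_combination ((ad G x y : ℤ) * (if x ∈ X B then 1 else -1) *
        (if y ∈ X B then 1 else -1)) * hε2 B
    · rw [if_neg h, add_zero]
      unfold wTb
      rw [if_neg h]
      push_cast
      rw [Finset.sum_mul, Finset.sum_mul]
      apply Finset.sum_congr rfl
      intro x hx
      rw [Finset.sum_mul, Finset.sum_mul]
      apply Finset.sum_congr rfl
      intro y hy
      have hne : B.1 ≠ B'.1 := fun h2 => h (Subtype.ext h2)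
      have hdis := hd B.1 B.2 B'.1 B'.2 hne
      have h1 := hout B x hx y (Finset.disjoint_right.mp hdis hy)
      have h2 := hout B' y hy x (Finset.disjoint_left.mp hdis hx)
      rw [ad_symm y x] at h2
      linear_combination (σ y) * h1 + (ε B) * h2
  unfold F
  rw [split_sum C hd]
  have e1 : ∀ x : V, ∑ y, (ad G x y : ℤ) * σ x * σ y =
      ∑ y : {x : V // ∀ B ∈ C, x ∉ B}, (ad G x y.1 : ℤ) * σ x * σ y.1 +
      ∑ B : {B // B ∈ C}, ∑ y ∈ B.1, (ad G x y : ℤ) * σ x * σ y := fun x => split_sum C hd _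
  simp_rw [e1, Finset.sum_add_distrib]
  have e2 : ∑ x : {x : V // ∀ B ∈ C, x ∉ B}, ∑ y : {x : V // ∀ B ∈ C, x ∉ B},
      (ad G x.1 y.1 : ℤ) * σ x.1 * σ y.1 = ∑ x : {x : V // ∀ B ∈ C, x ∉ B},
      ∑ y : {x : V // ∀ B ∈ C, x ∉ B}, (ad G x.1 y.1 : ℤ) * σR x * σR y := by
    apply Finset.sum_congr rfl
    intro x _
    apply Finset.sum_congr rfl
    intro y _
    rw [hσR' x, hσR' y]
  have e3 : ∑ x : {x : V // ∀ B ∈ C, x ∉ B}, ∑ B : {B // B ∈ C}, ∑ y ∈ B.1,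
      (ad G x.1 y : ℤ) * σ x.1 * σ y = ∑ B, ∑ x, (wRb G C B x : ℤ) * ε B * σR x := by
    rw [Finset.sum_comm]
    apply Finset.sum_congr rfl
    intro B _
    apply Finset.sum_congr rfl
    intro x _
    exact hRB x B
  have e4 : ∑ B : {B // B ∈ C}, ∑ x ∈ B.1, ∑ y : {x : V // ∀ B ∈ C, x ∉ B},
      (ad G x y.1 : ℤ) * σ x * σ y.1 = ∑ B, ∑ x, (wRb G C B x : ℤ) * ε B * σR x := by
    apply Finset.sum_congr rfl
    intro B _
    rw [Finset.sum_comm]
    apply Finset.sum_congr rfl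
    intro x _
    exact hBR x B
  have e5 : ∑ B : {B // B ∈ C}, ∑ x ∈ B.1, ∑ B' : {B // B ∈ C}, ∑ y ∈ B'.1,
      (ad G x y : ℤ) * σ x * σ y = ∑ B, ∑ B', (wTb G C B B' : ℤ) * ε B * ε B'
      - ∑ B : {B // B ∈ C}, (((k : ℤ) + 1) + (eT (wTb G C) (wRb G C) B : ℤ)
          - (2 * ((X B).card : ℤ) - ((k : ℤ) + 1)) ^ 2) := by
    rw [← Finset.sum_sub_distrib]
    apply Finset.sum_congr rfl
    intro B _
    rw [Finset.sum_comm]
    simp_rw [hBB B]
    rw [Finset.sum_add_distrib, Finset.sum_ite_eq]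
    simp only [Finset.mem_univ, if_true]
    ring
  rw [e2, e3, e4, e5]
  ring

end Pool.Agent.L0h9.JB
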