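import Pool.Agent.L0h9.JB.EvA

set_option autoImplicit false

/-! # Project JB, module EV2: parity and balancing -/

namespace Pool.Agent.L0h9.JB
open Finset Pool.Agent.Helper91.CK

section
variable {V : Type*} [Fintype V] [DecidableEq V]
variable {k : ℕ} {G : SimpleGraph V} [DecidableRel G.Adj]

lemma F_even (hreg : ∀ v, ∑ y, ad G v y = k) (hk : Even k) (σ : V → ℤ) (hσ : Sg σ) :
    (2 : ℤ) ∣ F (fun x y => (ad G x y : ℤ)) univ σ := by
  have h1 : ∀ x y : V, (2 : ℤ) ∣ (ad G x y : ℤ) * σ x * σ y - ad G x y := by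
    intro x y
    rcases hσ x with h | h <;> rcases hσ y with h' | h' <;> rw [h, h']
    · simp
    · exact ⟨-(ad G x y : ℤ), by ring⟩
    · exact ⟨-(ad G x y : ℤ), by ring⟩
    · simp
  have h2 : (2 : ℤ) ∣ ∑ x : V, ∑ y : V, ((ad G x y : ℤ) * σ x * σ y - ad G x y) :=
    Finset.dvd_sum fun x _ => Finset.dvd_sum fun y _ => h1 x y
  simp_rw [Finset.sum_sub_distrib] at h2
  have h3 : ∀ x : V, ∑ y : V, (ad G x y : ℤ) = k := fun x => by exact_mod_cast hreg x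
  simp_rw [h3] at h2
  obtain ⟨c, hc⟩ := hk
  have h4 : (2 : ℤ) ∣ ∑ _x : V, (k : ℤ) := Finset.dvd_sum fun x _ => ⟨c, by rw [hc]; push_cast; ring⟩
  unfold F
  rw [dvd_neg]
  have h5 := dvd_add h2 h4
  rwa [sub_add_cancel] at h5

lemma sum_par (σ : V → ℤ) (hσ : Sg σ) : (2 : ℤ) ∣ ∑ v, σ v - Fintype.card V := by
  have h1 : (2 : ℤ) ∣ ∑ v, (σ v - 1) := Finset.dvd_sum fun v _ => by
    rcases hσ v with h | h <;> rw [h] <;> norm_num
  rwa [Finset.sum_sub_distrib, Finset.sum_const, Finset.card_univ, nsmul_eq_mul, mul_one] at h1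

lemma assembleE (hk : Even k) (hreg : ∀ v, ∑ y, ad G v y = k) (C : Finset (Finset V))
    (hTi : ∀ B ∈ C, Tight G k B) (hd : ∀ B ∈ C, ∀ B' ∈ C, B ≠ B' → Disjoint B B')
    (σR : {x : V // ∀ B ∈ C, x ∉ B} → ℤ) (hσR : Sg σR) (ε : {B // B ∈ C} → ℤ) (hε : Sg ε) :
    ∃ σ : V → ℤ, Sg σ ∧ ∑ v, σ v = ∑ x, σR x - ∑ B, ε B ∧
    F (fun x y => (ad G x y : ℤ)) univ σ =
      -(∑ x : {x : V // ∀ B ∈ C, x ∉ B}, ∑ y : {x : V // ∀ B ∈ C, x ∉ B},
          (ad G x.1 y.1 : ℤ) * σR x * σR y)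
      - 2 * (∑ B, ∑ x, (wRb G C B x : ℤ) * ε B * σR x)
      - ∑ B, ∑ B', (wTb G C B B' : ℤ) * ε B * ε B'
      + (k : ℤ) * Fintype.card {B // B ∈ C} +
        ∑ B : {B // B ∈ C}, (eT (wTb G C) (wRb G C) B : ℤ) := by
  classical
  have hch : ∀ B : {B // B ∈ C}, ∃ X : Finset V, tch G B.1 ⊆ X ∧ X ⊆ B.1 ∧
      X.card = (k + 1) / 2 := by
    intro B
    have h1 := hTi B.1 B.2
    exact Finset.exists_subsuperset_card_eq (Finset.filter_subset _ _) (by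
      have := h1.2
      omega) (by rw [h1.1]; exact Nat.div_le_self _ _)
  choose X hX1 hX2 hX3 using hch
  obtain ⟨σ, hσ, hs, hF⟩ := assemble2 hreg C hTi hd X hX1 hX2 σR hσR ε hε
  have hδ : ∀ B, (2 * ((X B).card : ℤ) - ((k : ℤ) + 1)) = -1 := by
    intro B
    rw [hX3 B]
    obtain ⟨c, hc⟩ := hk
    have h1 : (k + 1) / 2 = c := by omega
    rw [h1, hc]
    push_cast
    ring
  simp_rw [hδ] at hs hF
  refine ⟨σ, hσ, ?_, ?_⟩
  · rw [hs]
    simp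
    ring
  · rw [hF]
    have h4 : ∀ B : {B // B ∈ C}, (((k : ℤ) + 1) + (eT (wTb G C) (wRb G C) B : ℤ)
          - (-1 : ℤ) ^ 2) = (k : ℤ) + (eT (wTb G C) (wRb G C) B : ℤ) := fun B => by ring
    simp_rw [h4]
    rw [Finset.sum_add_distrib, Finset.sum_const, Finset.card_univ, nsmul_eq_mul]
    ring

end

lemma poly_ineq (k R X F1 F2 : ℤ) (hk : 1000 ≤ k) (hR1 : 3 * k + 4 ≤ R)
    (hX : 0 ≤ X) (hF1 : 3 * k + 12 ≤ F1) (hF2 : F2 ≤ 3 * k + 8)
    (h : R * (R - 2) * F1 + X * (2 * R * (k * (1 + X)) - (X - 2) * ((R - 1) * k)) ≤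
      (R + X) * (R + X - 2) * F2) : False := by
  have hRX : 0 ≤ (R + X) * (R + X - 2) := mul_nonneg (by linarith) (by linarith)
  have hRR : 0 ≤ R * (R - 2) := mul_nonneg (by linarith) (by linarith)
  have h1 := mul_le_mul_of_nonneg_left hF2 hRX
  have h2 := mul_le_mul_of_nonneg_left hF1 hRR
  have h3 : X ^ 2 * (k * R - 2 * k - 8) + X * (-(2 * k * R) - 16 * R + 4 * k + 16) +
      4 * R * (R - 2) ≤ 0 := by
    have h4 := le_trans (le_trans (add_le_add_left h2 _) h) h1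
    linarith
  have hkR : 1000 * R ≤ k * R := mul_le_mul_of_nonneg_right hk (by linarith)
  have h5 : 0 ≤ k * R - 2 * k - 8 := by linarith
  have h6 : (3 * X - 3) * (k * R - 2 * k - 8) ≤ X ^ 2 * (k * R - 2 * k - 8) :=
    mul_le_mul_of_nonneg_right (by nlinarith [sq_nonneg (2 * X - 3)]) h5
  have h7 : 0 ≤ X * (k * R - 2 * k - 8 - 16 * R) := mul_nonneg hX (by linarith)
  have h8 : 0 < R * (4 * R - 8 - 3 * k) := mul_pos (by linarith) (by linarith)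
  linarith

theorem balance (hBAL : Pool.Agent.L0h26.CK.S_BAL) (V : Type) [Fintype V] [DecidableEq V]
    (G : SimpleGraph V) [DecidableRel G.Adj] (k : ℕ) (hk1 : 1000 ≤ k) (hk : Even k)
    (hreg : ∀ v, ∑ y, ad G v y = k) (hn : Odd (Fintype.card V))
    (hn1 : 3 * k + 3 ≤ Fintype.card V) (hn2 : Fintype.card V ≤ 3 * k + 7)
    (σ : V → ℤ) (hσ : Sg σ) (hF : 3 * (k : ℤ) + 12 ≤ F (fun x y => (ad G x y : ℤ)) univ σ) :
    ∃ σ : V → ℤ, Sg σ ∧ ∑ v, σ v = 1 ∧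
    6 * (k : ℤ) * ((k : ℤ) + 1) + ((k : ℤ) + 8) * (Fintype.card V : ℤ) ≤
      3 * ((k : ℤ) + 1) * F (fun x y => (ad G x y : ℤ)) univ σ := by
  obtain ⟨σ1, hσ1, hF1, hs1⟩ : ∃ σ1 : V → ℤ, Sg σ1 ∧
      3 * (k : ℤ) + 12 ≤ F (fun x y => (ad G x y : ℤ)) univ σ1 ∧ 0 ≤ ∑ v, σ1 v := by
    rcases le_total 0 (∑ v, σ v) with h | h
    · exact ⟨σ, hσ, hF, h⟩
    · refine ⟨fun v => - σ v, ?_, ?_, ?_⟩
      · intro v
        rcases hσ v with h1 | h1
        · right; simp [h1]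
        · left; simp [h1]
      · rw [F_neg]; exact hF
      · rw [Finset.sum_neg_distrib]; linarith
  obtain ⟨j, hj⟩ : ∃ j : ℕ, ∑ v, σ1 v = ((1 : ℕ) : ℤ) + 2 * j := by
    have h1 := sum_par σ1 hσ1
    obtain ⟨c, hc⟩ := hn
    rw [hc] at h1
    push_cast at h1
    refine ⟨((∑ v, σ1 v - 1) / 2).toNat, ?_⟩
    push_cast
    omega
  have hcard3 : 3 ≤ Fintype.card V := by omega
  obtain ⟨σ', hσ', hs', hB⟩ := hBAL V (fun x y => (ad G x y : ℤ))
    (fun x y => by rw [ad_symm]) (fun x => by rw [ad_self]; rfl) hcard3 1 j σ1 hσ1 hj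
  have h3 : ∀ x : V, ∑ y : V, (ad G x y : ℤ) = k := fun x => by exact_mod_cast hreg x
  simp only [h3, Finset.sum_const, Finset.card_univ, nsmul_eq_mul] at hB
  rw [← Finset.sum_mul, hj] at hB
  refine ⟨σ', hσ', by exact_mod_cast hs', ?_⟩
  have hk0 : (1000 : ℤ) ≤ k := by exact_mod_cast hk1
  have hn1' : 3 * (k : ℤ) + 3 ≤ Fintype.card V := by exact_mod_cast hn1
  have hn2' : (Fintype.card V : ℤ) ≤ 3 * k + 7 := by exact_mod_cast hn2
  have hF2 : 3 * (k : ℤ) + 10 ≤ F (fun x y => (ad G x y : ℤ)) univ σ' := by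
    by_contra hcon
    push Not at hcon
    have hev := F_even hreg hk σ' hσ'
    obtain ⟨c, hc⟩ := hk
    have h8 : F (fun x y => (ad G x y : ℤ)) univ σ' ≤ 3 * (k : ℤ) + 8 := by
      subst hc
      push_cast at hcon ⊢
      omega
    refine poly_ineq (k : ℤ) ((Fintype.card V : ℤ) + 1) (2 * (j : ℤ)) _ _ hk0
      (by linarith) (by positivity) hF1 h8 ?_
    push_cast at hB
    linarith
  nlinarith

end Pool.Agent.L0h9.JB
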