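import Pool.Agent.L0h9.JB.LowA

set_option autoImplicit false

/-! # Project JB, module LOW -/

namespace Pool.Agent.L0h9.JB
open Finset Pool.Agent.Helper91.CK

variable {V : Type*} [Fintype V] [DecidableEq V]
variable {k : ℕ} {G : SimpleGraph V} [DecidableRel G.Adj]

lemma card_split (C : Finset (Finset V)) (hTi : ∀ B ∈ C, Tight G k B)
    (hd : ∀ B ∈ C, ∀ B' ∈ C, B ≠ B' → Disjoint B B') :
    Fintype.card V = Fintype.card {x : V // ∀ B ∈ C, x ∉ B} +
      (k + 1) * Fintype.card {B // B ∈ C} := by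
  classical
  have h1 := split_sum C hd (fun _ => (1 : ℕ))
  have h2 : ∀ B : {B // B ∈ C}, ∑ x ∈ B.1, (1 : ℕ) = k + 1 := by
    intro B
    simp [(hTi B.1 B.2).1]
  simp_rw [h2] at h1
  simp only [Finset.sum_const, Finset.card_univ, smul_eq_mul, mul_one] at h1
  rw [h1]
  ring

lemma F_Wt_one {R : Type*} [Fintype R] [DecidableEq R] (H : SimpleGraph R) [DecidableRel H.Adj]
    (a : R → ℕ) (h : R → R → ℕ) (hR : RH k H a h) :
    (∑ x, (a x : ℤ)) - (k : ℤ) * Fintype.card R ≤ F (Wt H h) univ (fun _ => 1) := by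
  have h1 : ∀ x : R, ∑ y : R, Wt H h x y * 1 * 1 ≤ (k : ℤ) - a x := by
    intro x
    have h2 := hR.hdeg x
    unfold Wt
    have h3 : ∑ y : R, ((if H.Adj x y then (1 : ℤ) else 0) - (h x y : ℤ)) * 1 * 1 =
        ((univ.filter (fun y => H.Adj x y)).card : ℤ) - ∑ y, (h x y : ℤ) := by
      simp only [mul_one]
      rw [Finset.sum_sub_distrib]
      congr 1
      simp
    rw [h3]
    have h4 : (0 : ℤ) ≤ ∑ y, (h x y : ℤ) := Finset.sum_nonneg fun y _ => by positivity
    have h5 : ((univ.filter (fun y => H.Adj x y)).card : ℤ) + a x = k := by exact_mod_cast h2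
    linarith
  unfold F
  have h6 := Finset.sum_le_sum (s := (univ : Finset R)) (fun x _ => h1 x)
  rw [Finset.sum_sub_distrib, Finset.sum_const, Finset.card_univ, nsmul_eq_mul] at h6
  linarith

lemma rest_a_ge {R : Type*} [Fintype R] [DecidableEq R] (H : SimpleGraph R) [DecidableRel H.Adj]
    (a : R → ℕ) (h : R → R → ℕ) (hR : RH k H a h) (x : R) :
    (k : ℤ) - Fintype.card R + 1 ≤ a x := by
  have h2 := hR.hdeg x
  have h3 : (univ.filter (fun y => H.Adj x y)).card + 1 ≤ Fintype.card R := by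
    have h4 : univ.filter (fun y => H.Adj x y) ⊆ univ.erase x := by
      intro y hy
      rw [Finset.mem_filter] at hy
      rw [Finset.mem_erase]
      exact ⟨fun hxy => H.irrefl (hxy ▸ hy.2 : H.Adj x x), Finset.mem_univ _⟩
    have h5 := Finset.card_le_card h4
    rw [Finset.card_erase_of_mem (Finset.mem_univ _), Finset.card_univ] at h5
    have : 0 < Fintype.card R := Fintype.card_pos_iff.mpr ⟨x⟩
    omega
  omega

theorem key (hk1 : 1000 ≤ k) (hk : Odd k) (hreg : ∀ v, ∑ y, ad G v y = k)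
    (hcf : G.CliqueFree (k + 1)) (C : Finset (Finset V))
    (hTi : ∀ B ∈ C, Tight G k B) (hd : ∀ B ∈ C, ∀ B' ∈ C, B ≠ B' → Disjoint B B')
    (σR : {x : V // ∀ B ∈ C, x ∉ B} → ℤ) (hσR : Sg σR) :
    ∃ ε : {B // B ∈ C} → ℤ, Sg ε ∧
      (8 * (Fintype.card {B // B ∈ C} : ℤ) - 3 * (∑ B : {B // B ∈ C}, (eT (wTb G C) (wRb G C) B : ℤ))
        + ∑ x : {x : V // ∀ B ∈ C, x ∉ B}, ((∑ B, wRb G C B x : ℕ) : ℤ)
        + 3 * ∑ x, ∑ y, (hT (wTb G C) (wRb G C) x y : ℤ) * σR x * σR y ≤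
       3 * (-∑ b, ∑ b', (wTb G C b b' : ℤ) * ε b * ε b' -
         2 * ∑ b, ∑ x, (wRb G C b x : ℤ) * ε b * σR x)) ∧
      ∀ j : {B // B ∈ C} → ℕ, (∀ B, j B ≤ 2) → ∃ σ : V → ℤ, Sg σ ∧
        ∑ v, σ v = ∑ x, σR x + ∑ B, ε B * (2 * (j B : ℤ)) ∧
        3 * F (Wt (G.comap Subtype.val) (hT (wTb G C) (wRb G C))) univ σR +
          (3 * (k : ℤ) + 11) * (Fintype.card {B // B ∈ C} : ℤ) +
          ∑ x : {x : V // ∀ B ∈ C, x ∉ B}, ((∑ B, wRb G C B x : ℕ) : ℤ) -
          12 * ∑ B, (j B : ℤ) ^ 2 ≤ 3 * F (fun x y => (ad G x y : ℤ)) univ σ := by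
  classical
  have heT := eT_eq hreg C hTi hd
  obtain ⟨ε, hε, hTF⟩ := tpart (wTb G C) (wRb G C) (wTb_symm C) (wTb_self C)
    (fun B => by rw [heT B]; exact even_sum (ms G) ms_symm ms_self B.1)
    (fun B => by rw [heT B]; exact miss_pos hcf B.1 (hTi B.1 B.2).1) σR hσR
  have hA : ∑ x : {x : V // ∀ B ∈ C, x ∉ B}, ((∑ B, wRb G C B x : ℕ) : ℤ) =
      ∑ B, ∑ x, (wRb G C B x : ℤ) := by
    rw [Finset.sum_comm]
    push_cast
    rfl
  rw [Finset.sum_sub_distrib, ← Finset.mul_sum] at hTF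
  simp only [Finset.sum_const, Finset.card_univ, nsmul_eq_mul] at hTF
  refine ⟨ε, hε, ?_, ?_⟩
  · rw [hA]
    linarith
  intro j hj
  have hch : ∀ B : {B // B ∈ C}, ∃ X : Finset V, tch G B.1 ⊆ X ∧ X ⊆ B.1 ∧
      X.card = (k + 1) / 2 + j B := by
    intro B
    have h1 := hTi B.1 B.2
    exact Finset.exists_subsuperset_card_eq (Finset.filter_subset _ _) (by
      have := h1.2
      omega) (by
      rw [h1.1]
      have := hj B
      omega)
  choose X hX1 hX2 hX3 using hch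
  obtain ⟨σ, hσ, hs, hF⟩ := assemble hk hreg C hTi hd X j hX1 hX2 hX3 σR hσR ε hε
  refine ⟨σ, hσ, hs, ?_⟩
  have hW : F (Wt (G.comap Subtype.val) (hT (wTb G C) (wRb G C))) univ σR =
      -(∑ x : {x : V // ∀ B ∈ C, x ∉ B}, ∑ y : {x : V // ∀ B ∈ C, x ∉ B},
          (ad G x.1 y.1 : ℤ) * σR x * σR y) +
      ∑ x, ∑ y, (hT (wTb G C) (wRb G C) x y : ℤ) * σR x * σR y := by
    unfold F Wt
    rw [← Finset.sum_neg_distrib, ← Finset.sum_neg_distrib, ← Finset.sum_add_distrib]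
    apply Finset.sum_congr rfl
    intro x _
    rw [← Finset.sum_neg_distrib, ← Finset.sum_neg_distrib, ← Finset.sum_add_distrib]
    apply Finset.sum_congr rfl
    intro y _
    unfold ad
    by_cases hxy : G.Adj x.1 y.1
    · simp [hxy]; ring
    · simp [hxy]
  rw [hW, hF, hA]
  have h4 : ∀ B : {B // B ∈ C}, (((k : ℤ) + 1) + (eT (wTb G C) (wRb G C) B : ℤ)
          - 4 * (j B : ℤ) ^ 2) = ((k : ℤ) + 1) + ((eT (wTb G C) (wRb G C) B : ℤ)
          - 4 * (j B : ℤ) ^ 2) := fun B => by ring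
  simp_rw [h4]
  rw [Finset.sum_add_distrib, Finset.sum_sub_distrib, ← Finset.mul_sum]
  simp only [Finset.sum_const, Finset.card_univ, nsmul_eq_mul]
  linarith

end Pool.Agent.L0h9.JB

namespace Pool.Agent.L0h9.JB
open Finset Pool.Agent.Helper91.CK

theorem t_LOW : Pool.Agent.L0h26.CK.S_LOW := by
  classical
  intro hRBC V _ _ G _ k hk1 hk hreg hcf
  obtain ⟨C, hTi, hd, hmax⟩ := exists_family G k
  have hR := RH_of hreg C hd hmax
  have hcard := card_split C hTi hd
  have hnE : Even (Fintype.card V) := by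
    have h1 : Even (∑ x : V, ∑ y : V, ad G x y) := even_sum (ad G) ad_symm ad_self univ
    simp_rw [hreg] at h1
    rw [Finset.sum_const, Finset.card_univ, smul_eq_mul, Nat.even_mul] at h1
    rcases h1 with h | h
    · exact h
    · exact absurd h (Nat.not_even_iff_odd.mpr hk)
  have hrE : Even (Fintype.card {x : V // ∀ B ∈ C, x ∉ B}) := by
    have h2 : Even ((k + 1) * Fintype.card {B // B ∈ C}) := (hk.add_one).mul_right _
    rw [hcard] at hnE
    exact (Nat.even_add.mp hnE).mpr h2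
  have hcardZ : (Fintype.card V : ℤ) = (Fintype.card {x : V // ∀ B ∈ C, x ∉ B} : ℤ) +
      ((k : ℤ) + 1) * (Fintype.card {B // B ∈ C} : ℤ) := by
    exact_mod_cast hcard
  have hk0 : (1000 : ℤ) ≤ k := by exact_mod_cast hk1
  have hr0 : (0 : ℤ) ≤ (Fintype.card {x : V // ∀ B ∈ C, x ∉ B} : ℤ) := by positivity
  have hT0 : (0 : ℤ) ≤ (Fintype.card {B // B ∈ C} : ℤ) := by positivity
  rcases Nat.lt_or_ge (Fintype.card {x : V // ∀ B ∈ C, x ∉ B}) 6 with hr6 | hr6
  · -- small rest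
    have hs1 : Sg (fun _ : {x : V // ∀ B ∈ C, x ∉ B} => (1 : ℤ)) := fun _ => Or.inl rfl
    obtain ⟨ε, hε, htp, hkey⟩ := key hk1 hk hreg hcf C hTi hd (fun _ => 1) hs1
    have hA0 : ((k : ℤ) - Fintype.card {x : V // ∀ B ∈ C, x ∉ B} + 1) *
        (Fintype.card {x : V // ∀ B ∈ C, x ∉ B} : ℤ) ≤
        ∑ x : {x : V // ∀ B ∈ C, x ∉ B}, ((∑ B, wRb G C B x : ℕ) : ℤ) := by
      have h6 := Finset.sum_le_sum (s := (univ : Finset {x : V // ∀ B ∈ C, x ∉ B}))
        (fun x _ => rest_a_ge _ _ _ hR x)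
      rw [Finset.sum_const, Finset.card_univ, nsmul_eq_mul] at h6
      linarith
    have hF1 := F_Wt_one _ _ _ hR
    rcases Nat.eq_zero_or_pos (Fintype.card {x : V // ∀ B ∈ C, x ∉ B}) with hr | hr
    · obtain ⟨σ, hσ, hs, hF⟩ := hkey (fun _ => 0) (fun _ => by norm_num)
      refine ⟨σ, hσ, ?_, ?_⟩
      · rw [hs]
        simp [hr]
      · rw [hr] at hA0 hF1 hcardZ
        simp only [Nat.cast_zero, mul_zero] at hA0 hF1 hcardZ
        simp only [Nat.cast_zero, ne_eq, OfNat.ofNat_ne_zero, not_false_eq_true, zero_pow,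
          Finset.sum_const_zero, mul_zero, sub_zero] at hF
        rw [hcardZ]
        nlinarith
    · -- a block with sign -1
      have hAp : 0 < ∑ x : {x : V // ∀ B ∈ C, x ∉ B}, ((∑ B, wRb G C B x : ℕ) : ℤ) := by
        refine lt_of_lt_of_le ?_ hA0
        have h7 : (Fintype.card {x : V // ∀ B ∈ C, x ∉ B} : ℤ) < 6 := by exact_mod_cast hr6
        have h8 : (0 : ℤ) < (Fintype.card {x : V // ∀ B ∈ C, x ∉ B} : ℤ) := by exact_mod_cast hr
        exact mul_pos (by linarith) h8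
      have hB0 : ∃ B0, ε B0 = -1 := by
        by_contra hcon
        push Not at hcon
        have hε1 : ∀ B, ε B = 1 := fun B => (hε B).resolve_right (hcon B)
        simp only [hε1, mul_one] at htp
        have h9 : ∑ B : {B // B ∈ C}, (eT (wTb G C) (wRb G C) B : ℤ) =
            ∑ b, ∑ b', (wTb G C b b' : ℤ) + ∑ b, ∑ x, (wRb G C b x : ℤ) := by
          unfold eT
          push_cast
          rw [Finset.sum_add_distrib]
        have hA : ∑ x : {x : V // ∀ B ∈ C, x ∉ B}, ((∑ B, wRb G C B x : ℕ) : ℤ) =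
            ∑ B, ∑ x, (wRb G C B x : ℤ) := by
          rw [Finset.sum_comm]
          push_cast
          rfl
        have h10 : (0 : ℤ) ≤ ∑ x, ∑ y, (hT (wTb G C) (wRb G C) x y : ℤ) :=
          Finset.sum_nonneg fun _ _ => Finset.sum_nonneg fun _ _ => by positivity
        rw [h9, hA] at htp
        rw [hA] at hAp
        linarith
      obtain ⟨B0, hB0⟩ := hB0
      obtain ⟨c, hc⟩ := hrE
      have hc2 : c ≤ 2 := by omega
      have hc1 : 1 ≤ c := by omega
      obtain ⟨σ, hσ, hs, hF⟩ := hkey (fun B => if B = B0 then c else 0) (fun B => by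
        split_ifs
        · exact hc2
        · norm_num)
      have hj1 : ∑ B, ε B * (2 * (((fun B => if B = B0 then c else 0 : {B // B ∈ C} → ℕ) B : ℕ) : ℤ))
          = -(2 * (c : ℤ)) := by
        rw [Finset.sum_eq_single B0]
        · simp [hB0]
        · intro B _ hB
          simp [hB]
        · intro h
          exact absurd (Finset.mem_univ _) h
      have hj2 : ∑ B, (((fun B => if B = B0 then c else 0 : {B // B ∈ C} → ℕ) B : ℕ) : ℤ) ^ 2
          = (c : ℤ) ^ 2 := by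
        rw [Finset.sum_eq_single B0]
        · simp
        · intro B _ hB
          simp [hB]
        · intro h
          exact absurd (Finset.mem_univ _) h
      rw [hj2] at hF
      rw [hj1] at hs
      refine ⟨σ, hσ, ?_, ?_⟩
      · rw [hs]
        simp only [Finset.sum_const, Finset.card_univ, nsmul_eq_mul, mul_one]
        rw [hc]
        push_cast
        ring
      · have hcZ : (Fintype.card {x : V // ∀ B ∈ C, x ∉ B} : ℤ) = 2 * c := by
          rw [hc]; push_cast; ring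
        rw [hcZ] at hA0 hF1 hcardZ
        have hc1' : (1 : ℤ) ≤ c := by exact_mod_cast hc1
        have hc2' : (c : ℤ) ≤ 2 := by exact_mod_cast hc2
        rw [hcardZ]
        set A : ℤ := ∑ x : {x : V // ∀ B ∈ C, x ∉ B}, ((∑ B, wRb G C B x : ℕ) : ℤ)
        set FW : ℤ := F (Wt (G.comap Subtype.val) (hT (wTb G C) (wRb G C))) univ (fun _ => 1)
        set T : ℤ := (Fintype.card {B // B ∈ C} : ℤ)
        set FF : ℤ := F (fun x y => (ad G x y : ℤ)) univ σ
        set K : ℤ := (k : ℤ)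
        have h11 : (3 * K + 11) * T + 4 * A - 3 * K * (2 * c) - 12 * (c : ℤ) ^ 2 ≤ 3 * FF := by
          linarith
        have h12 : (3 * K + 11) * T + 4 * ((K - 2 * c + 1) * (2 * c)) - 3 * K * (2 * c)
            - 12 * (c : ℤ) ^ 2 ≤ 3 * FF := by linarith
        have h13 : (3 * K + 11) * T + 2 * c * (K - 24) ≤ 3 * FF := by nlinarith
        have h14 : (K + 1) * ((3 * K + 11) * T + 2 * c * (K - 24)) ≤ (K + 1) * (3 * FF) :=
          mul_le_mul_of_nonneg_left h13 (by linarith)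
        have h15 : (3 * K + 11) ≤ (K + 1) * (K - 24) := by nlinarith
        have h16 : (3 * K + 11) * (2 * c) ≤ (K + 1) * (K - 24) * (2 * c) :=
          mul_le_mul_of_nonneg_right h15 (by linarith)
        nlinarith
  · obtain ⟨σR, hσR, hs0, hRF⟩ := hRBC {x : V // ∀ B ∈ C, x ∉ B} k (G.comap Subtype.val)
      (fun x => ∑ B, wRb G C B x) (hT (wTb G C) (wRb G C)) hk1 hR hrE hr6
    obtain ⟨ε, hε, htp, hkey⟩ := key hk1 hk hreg hcf C hTi hd σR hσR
    obtain ⟨σ, hσ, hs, hF⟩ := hkey (fun _ => 0) (fun _ => by norm_num)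
    refine ⟨σ, hσ, ?_, ?_⟩
    · rw [hs, hs0]
      simp
    · simp only [Nat.cast_zero, ne_eq, OfNat.ofNat_ne_zero, not_false_eq_true, zero_pow,
        Finset.sum_const_zero, mul_zero, sub_zero] at hF
      rw [hcardZ]
      have h14 := mul_le_mul_of_nonneg_left hF (by linarith : (0 : ℤ) ≤ (k : ℤ) + 1)
      nlinarith

end Pool.Agent.L0h9.JB
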